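import Pool.Agent.U201.EC.Defs

/-!
# Pairs `(F, Δ_F)` which satisfy the cone conjecture, and pairs on quotients `(A × F) / G`: definitions

The conventions are those of `Pool.Agent.X324.CF.Defs` and `Pool.Agent.U201.EC.Defs`: `F` is a normal
projective variety, `ℚ`-factorial with free class group `Cl(F) = ℤ^ρ`, with Cox ring
`R = ⨁ H⁰(F, O_F(β))`; the points of `F` are given by the semistable points of `Spec R`. An
automorphism `φ` of `R` which permutes the pieces and preserves the semistable points gives the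
automorphism of `F` which maps the point of `p` to the point of `p ∘ φ⁻¹`.
-/

set_option autoImplicit false

namespace Pool.Agent.U201.PC

open Pool.Agent.X324.CF Pool.Agent.U201.EC
open Pool.Agent.Y167 (cone)
open Pool.Agent.Y167.CC (LinGrp Preserves)

section F

variable {ρ : ℕ} {R : Type*} [CommRing R] [Algebra ℂ R] (𝒜 : Cl ρ → Submodule ℂ R)

/-- `φ` gives an automorphism of `F` which acts on `Cl(F)` by `σ` and maps the set `S` of points of `F`
onto itself. If `S` is the support of the divisor `Δ_F`, this is the group `Aut(F, Δ_F)`. -/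
def IsAutS (u : Cl ρ) (S : Set (R →ₐ[ℂ] ℂ)) (φ : R ≃ₐ[ℂ] R) (σ : Cl ρ ≃+ Cl ρ) : Prop :=
  IsAut 𝒜 u φ σ ∧
    ∀ p : R →ₐ[ℂ] ℂ, Semistable 𝒜 u p → (p.comp (φ.symm : R →ₐ[ℂ] R) ∈ S ↔ p ∈ S)

/-- `F` is a normal projective variety, `ℚ`-factorial with free class group `Cl(F) = ℤ^ρ` and with
ample class `u`, and the pair of `F` and a divisor `Δ_F` with support `S` satisfies the cone
conjecture (its existence part), and only finitely many automorphisms of `(F, Δ_F)` act trivially on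
`Cl(F)`. The conditions say: `F` is not empty; every class becomes effective, and semiample, when a
multiple of `u` is added; for some class of curves `y`, the coordinates of an effective class are
bounded by its degree on `y`; the automorphisms of `(F, Δ_F)` which act trivially on `Cl(F)` are, up to
scalars on each piece of `R`, finitely many; there is a rational polyhedral cone in `Nef(F) ∩ Eff(F)`,
spanned by the finite set `P`, such that every class in `Nef(F) ∩ Eff(F)` is mapped into this cone by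
an automorphism of `(F, Δ_F)`. -/
structure IsConePair (u : Cl ρ) (S : Set (R →ₐ[ℂ] ℂ)) : Prop where
  point : ∃ p : R →ₐ[ℂ] ℂ, Semistable 𝒜 u p
  sections : ∀ β : Cl ρ, ∃ m : ℕ, (∃ r ∈ 𝒜 (β + m • u), r ≠ 0) ∧ ∃ r ∈ 𝒜 (m • u), r ≠ 0
  ample : ∀ β : Cl ρ, ∃ m : ℕ, SemiampleF 𝒜 u (β + m • u)
  curve : ∃ y : Cl ρ, ∀ β, (∃ r ∈ 𝒜 β, r ≠ 0) → ∀ i, |β i| ≤ ∑ k, y k * β k
  kernel : ∃ T : Set (R ≃ₐ[ℂ] R), T.Finite ∧ ∀ φ, IsAutS 𝒜 u S φ (AddEquiv.refl _) →
    ∃ t ∈ T, ∃ s ∈ Scal 𝒜, φ = t * s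
  cone : ∃ P : Finset (Fin ρ → ℝ), (∀ a ∈ P, (∃ β, a = rv β) ∧ a ∈ NefF 𝒜 u ∩ EffF 𝒜) ∧
    ∀ b ∈ NefF 𝒜 u ∩ EffF 𝒜, ∃ φ σ, IsAutS 𝒜 u S φ σ ∧ ext σ b ∈ cone P

end F

section X

variable {V R : Type*} [NormedAddCommGroup V] [NormedSpace ℂ V] [CommRing R] [Algebra ℂ R] {ρ : ℕ}
  {𝒜 : Cl ρ → Submodule ℂ R} {Γ : Grp V R} {ι : Type*}

/-- The image in `X` of the point `(v, p)` of `V × F` is in the support of the divisor
`Δ = ∑ r i • div (s i)`. -/
def InSupp (Δ : EffDiv 𝒜 Γ ι) (v : V) (p : R →ₐ[ℂ] ℂ) : Prop := ∃ i, Δ.r i ≠ 0 ∧ p (Δ.s i v) = 0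

/-- The automorphism of `X` given by the pair `(f, φ)` maps the support of `Δ` onto itself. (The pair
maps the point `(v, p)` to the point `(f v, p ∘ φ⁻¹)`.) -/
def Keeps (u : Cl ρ) (Δ : EffDiv 𝒜 Γ ι) (f : V ≃ᵃ[ℂ] V) (φ : R ≃ₐ[ℂ] R) : Prop :=
  ∀ (v : V) (p : R →ₐ[ℂ] ℂ), Semistable 𝒜 u p →
    (InSupp Δ (f v) (p.comp (φ.symm : R →ₐ[ℂ] R)) ↔ InSupp Δ v p)

/-- `Δ · C = 0` for the images `C` in `X` of the curves `C' × {point}` of `A × F`: the Chern forms of
the components of `Δ` are zero. -/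
def TrivialOnA (Δ : EffDiv 𝒜 Γ ι) : Prop := ∀ i, Δ.r i ≠ 0 → ∀ v w, Δ.H i v w = 0

end X

end Pool.Agent.U201.PC
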