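import Pool.Agent.U201.PC.Defs
import Pool.Agent.U201.GC.MovDefs

/-!
# Pairs `(F, Δ_F)` which satisfy the movable cone conjecture, and pairs on quotients: definitions

The prime divisors of `F` are given by the homogeneous prime elements of the Cox ring `R`, and the
pseudo-automorphisms of `F` by the automorphisms of `R` which permute the homogeneous pieces.
-/

set_option autoImplicit false

namespace Pool.Agent.U201.PC

open Pool.Agent.X324.CF Pool.Agent.U201.EC Pool.Agent.U201.GC Pool.Agent.U201.CM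
open Pool.Agent.Y167 (cone)
open Pool.Agent.Y167.CC (LinGrp Preserves)

section F

variable {ρ : ℕ} {R : Type*} [CommRing R] [Algebra ℂ R] (𝒜 : Cl ρ → Submodule ℂ R)

/-- `φ` gives a pseudo-automorphism of `F` which acts on `Cl(F)` by `σ` and maps the set `S` of prime
divisors of `F` onto itself. If `S` is the set of the components of the divisor `Δ_F`, this is the
group `PsAut(F, Δ_F)`. -/
def IsPsAutS (S : Set R) (φ : R ≃ₐ[ℂ] R) (σ : Cl ρ ≃+ Cl ρ) : Prop :=
  Induces 𝒜 φ σ ∧ ∀ π : R, Prime π → (φ π ∈ S ↔ π ∈ S)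

/-- `F` is a normal projective variety, `ℚ`-factorial with free class group `Cl(F) = ℤ^ρ` and with
ample class `u`, and the pair of `F` and a divisor `Δ_F`, whose components form the set `S`, satisfies
the movable cone conjecture (its existence part), and only finitely many pseudo-automorphisms of
`(F, Δ_F)` act trivially on `Cl(F)`. The conditions say: the Cox ring `R` is factorial; every class
becomes effective, and movable, when a multiple of `u` is added; for some class of curves `y`, the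
coordinates of an effective class are bounded by its degree on `y`; the pseudo-automorphisms of
`(F, Δ_F)` which act trivially on `Cl(F)` are, up to scalars on each piece of `R`, finitely many;
there is a rational polyhedral cone in the effective movable cone, spanned by the finite set `P`, such
that every class in the effective movable cone is mapped into this cone by a pseudo-automorphism of
`(F, Δ_F)`. -/
structure IsMovConePair (u : Cl ρ) (S : Set R) : Prop where
  ufd : UniqueFactorizationMonoid R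
  sections : ∀ β : Cl ρ, ∃ m : ℕ, (∃ r ∈ 𝒜 (β + m • u), r ≠ 0) ∧ ∃ r ∈ 𝒜 (m • u), r ≠ 0
  ample : ∀ β : Cl ρ, ∃ m : ℕ, MovableF 𝒜 (β + m • u)
  curve : ∃ y : Cl ρ, ∀ β, (∃ r ∈ 𝒜 β, r ≠ 0) → ∀ i, |β i| ≤ ∑ k, y k * β k
  kernel : ∃ T : Set (R ≃ₐ[ℂ] R), T.Finite ∧ ∀ φ, IsPsAutS 𝒜 S φ (AddEquiv.refl _) →
    ∃ t ∈ T, ∃ s ∈ Scal 𝒜, φ = t * s
  cone : ∃ P : Finset (Fin ρ → ℝ), (∀ a ∈ P, (∃ β, a = rv β) ∧ a ∈ MovF 𝒜 ∩ EffF 𝒜) ∧
    ∀ b ∈ MovF 𝒜 ∩ EffF 𝒜, ∃ φ σ, IsPsAutS 𝒜 S φ σ ∧ ext σ b ∈ cone P

end F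

section X

variable {V R : Type*} [NormedAddCommGroup V] [NormedSpace ℂ V] [CommRing R] [Algebra ℂ R] {ρ : ℕ}
  {𝒜 : Cl ρ → Submodule ℂ R} {Γ : Grp V R} {ι : Type*}

/-- The prime divisor of `F` given by the prime element `π` is a component of the restriction of the
divisor `Δ = ∑ r i • div (s i)` to `{v} × F`. -/
def IsComp (Δ : EffDiv 𝒜 Γ ι) (v : V) (π : R) : Prop := ∃ i, Δ.r i ≠ 0 ∧ π ∣ Δ.s i v

/-- The pseudo-automorphism of `X` given by the pair `(f, φ)` maps the support of `Δ` onto itself. (It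
maps `{v} × D` to `{f v} × φ D`, for a prime divisor `D` of `F`.) -/
def KeepsComp (Δ : EffDiv 𝒜 Γ ι) (f : V ≃ᵃ[ℂ] V) (φ : R ≃ₐ[ℂ] R) : Prop :=
  ∀ (v : V) (π : R), Prime π → (IsComp Δ (f v) (φ π) ↔ IsComp Δ v π)

end X

end Pool.Agent.U201.PC
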