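import Pool.Agent.U201.PC.Nef
import Pool.Agent.U201.PC.MovDefs
import Pool.Agent.U201.GC.Mov

/-!
# The movable cone of pairs
-/

set_option autoImplicit false

namespace Pool.Agent.U201.PC

open Finset Filter Topology
open Pool.Agent.W594.SYZ2 Pool.Agent.W594.SYZ2.TQ Pool.Agent.TH735.AQ
open Pool.Agent.X324.CF Pool.Agent.U201.EC Pool.Agent.U201.CM
open Pool.Agent.U201.GC (movableF_act MovF movEff)
open Pool.Agent.Y167 (cone Rel Pol Cp CData)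
open Pool.Agent.Y167.CC (LinGrp Preserves IsFundDomain)

section F

variable {ρ : ℕ} {R : Type*} [CommRing R] [Algebra ℂ R]
  {𝒜 : Cl ρ → Submodule ℂ R} {u : Cl ρ} {S : Set R}

theorem prime_map {φ : R ≃ₐ[ℂ] R} {π : R} (h : Prime π) : Prime (φ π) :=
  (MulEquiv.prime_iff (φ : R ≃* R)).2 h

theorem isPsAutS_mul {φ ψ : R ≃ₐ[ℂ] R} {σ τ : Cl ρ ≃+ Cl ρ}
    (h : IsPsAutS 𝒜 S φ σ) (h' : IsPsAutS 𝒜 S ψ τ) : IsPsAutS 𝒜 S (φ * ψ) (τ.trans σ) :=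
  ⟨induces_mul h.1 h'.1, fun π hπ => (h.2 _ (prime_map hπ)).trans (h'.2 π hπ)⟩

theorem isPsAutS_inv [GradedAlgebra 𝒜] {φ : R ≃ₐ[ℂ] R} {σ : Cl ρ ≃+ Cl ρ}
    (h : IsPsAutS 𝒜 S φ σ) : IsPsAutS 𝒜 S φ⁻¹ σ.symm := by
  refine ⟨induces_inv h.1, fun π hπ => ?_⟩
  have h1 := h.2 (φ⁻¹ π) (prime_map hπ)
  have h2 : φ (φ⁻¹ π) = π := φ.apply_symm_apply π
  rw [h2] at h1
  exact h1.symm

theorem isPsAutS_one : IsPsAutS 𝒜 S 1 (AddEquiv.refl _) := ⟨induces_one, fun _ _ => Iff.rfl⟩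

variable [IsDomain R] [GradedAlgebra 𝒜]

theorem IsMovConePair.sys (F : IsMovConePair 𝒜 u S) :
    PosSys 𝒜 u (MovableF 𝒜) (Induces 𝒜) (IsPsAutS 𝒜 S) := by
  have := F.ufd
  exact
  { sections := F.sections
    curve := F.curve
    kernel := F.kernel
    au_ind := fun _ _ h => h
    au_mul := fun _ _ _ _ h h' => induces_mul h h'
    au_inv := fun _ _ h => induces_inv h
    au_fix := fun _ _ h _ => h
    pos_act := fun _ _ _ h hβ => movableF_act h hβ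
    pos_zero := MovableF.zero
    pos_add := fun _ _ h h' => h.add h'
    pos_ample := F.ample
    pos_eff := fun β h => by
      obtain ⟨m, hm, h1⟩ := h
      exact ⟨m, hm, exists_ne h1⟩
    h_au := fun _ _ h => h.1
    h_mul := fun _ _ _ _ h h' => isPsAutS_mul h h'
    h_inv := fun _ _ h => isPsAutS_inv h
    cone := F.cone }

end F

variable {V E R : Type*} [NormedAddCommGroup V] [NormedSpace ℂ V] [FiniteDimensional ℂ V]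
  [NormedAddCommGroup E] [NormedSpace ℂ E] [CommRing R] [IsDomain R] [Algebra ℂ R] {ρ : ℕ}
  {𝒜 : Cl ρ → Submodule ℂ R} [GradedAlgebra 𝒜] {Γ : Grp V R} {j : E →ₗ[ℂ] V} {u : Cl ρ}
  {S : Set R} {ι : Type*}

theorem goodQ_mov (F : IsMovConePair 𝒜 u S) (hQ : IsQuotient 𝒜 u Γ) :
    GoodQ (MovableF 𝒜) (movable 𝒜 Γ j) := by
  have heff : ∀ a ∈ movable 𝒜 Γ j, a ∈ effective 𝒜 Γ j := by
    rintro a ⟨𝓛, hc, hm⟩
    have h1 : ∃ f, 𝓛.IsSection f ∧ ∃ v, f v ≠ 0 := by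
      by_contra hcon
      push Not at hcon
      have h2 := hm 0 (fun _ => 0) (fun _ => Submodule.zero_mem _) (holo_const 0)
        (fun f hf v => by rw [hcon f hf v]) 0
      exact not_isUnit_zero h2
    obtain ⟨f, hf, h0⟩ := h1
    exact ⟨𝓛, f, hc, hf, h0⟩
  refine
  { form := fun a ha e => effective_form hQ (heff a ha) e
    deg_mem := ?_
    bpf := fun _ hs _ ha => bpf_movable hs ha
    deg := ?_
    eff := fun a ha => hull_mem (heff a ha) }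
  · rintro a ⟨𝓛, hc, hm⟩
    have h3 : (val a).2 = rv 𝓛.deg := funext hc.2
    rw [h3]
    exact subset_closure (hull_mem ⟨_, movable_deg hm, rfl⟩)
  · classical
    intro β hβ hI
    have := F.ufd
    have := hQ.fin_gal
    have : Fintype (gal Γ) := Fintype.ofFinite _
    obtain ⟨m, hm, h1⟩ := hI
    obtain ⟨a, ha1, ha2⟩ := exists_degclass (j := j) F.sys.base hQ hβ m
    refine ⟨Nat.card (gal Γ) * m, Nat.mul_pos Nat.card_pos hm, a,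
      ⟨_, ha1, fun β' E' hE' _ hd v => ?_⟩, ha2⟩
    refine unit_of_dvd_nrm' (K := gal Γ) h1 fun r hr => ?_
    exact hd _ (ofDeg_section hr) v

omit [IsDomain R] [GradedAlgebra 𝒜] in
theorem isComp_const (hQ : IsQuotient 𝒜 u Γ) (Δ : EffDiv 𝒜 Γ ι) (hΔ : TrivialOnA Δ) (v : V)
    (π : R) : IsComp Δ v π ↔ IsComp Δ 0 π := by
  refine exists_congr fun i => and_congr_right fun hi => ?_
  obtain ⟨c, hc, h⟩ := const_sect hQ Δ hΔ i hi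
  rw [h v]
  constructor
  · rintro ⟨a, ha⟩
    refine ⟨(c v)⁻¹ • a, ?_⟩
    rw [mul_smul_comm, ← ha, smul_smul, inv_mul_cancel₀ (hc v), one_smul]
  · rintro ⟨a, ha⟩
    exact ⟨c v • a, by rw [mul_smul_comm, ← ha]⟩

omit [IsDomain R] [GradedAlgebra 𝒜] in
theorem keepsComp_of (hQ : IsQuotient 𝒜 u Γ) (Δ : EffDiv 𝒜 Γ ι) (hΔ : TrivialOnA Δ)
    (f : V ≃ᵃ[ℂ] V) {φ : R ≃ₐ[ℂ] R} {σ : Cl ρ ≃+ Cl ρ}
    (h : IsPsAutS 𝒜 {π | IsComp Δ 0 π} φ σ) : KeepsComp Δ f φ := by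
  intro v π hπ
  rw [isComp_const hQ Δ hΔ, isComp_const hQ Δ hΔ v]
  exact h.2 π hπ

omit [IsDomain R] [GradedAlgebra 𝒜] in
/-- The elements of the finite group preserve the divisor. -/
theorem gal_psAutS (hQ : IsQuotient 𝒜 u Γ) (Δ : EffDiv 𝒜 Γ ι) (hΔ : TrivialOnA Δ) (ψ : gal Γ) :
    IsPsAutS 𝒜 {π | IsComp Δ 0 π} ψ.1 (sg hQ ψ) := by
  refine ⟨sg_spec hQ ψ, fun π _ => ?_⟩
  obtain ⟨φ, γ, hγ, rfl⟩ := ψ
  change IsComp Δ 0 (γ.2 π) ↔ IsComp Δ 0 π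
  rw [← isComp_const hQ Δ hΔ (γ.1 0) (γ.2 π)]
  refine exists_congr fun i => and_congr_right fun hi => ?_
  have h1 := (Δ.sect i).eq ⟨γ, hγ⟩ 0
  change Δ.s i (γ.1 0) = _ at h1
  have h0 := (Δ.L i).ne_zero ⟨γ, hγ⟩ 0
  have h2 : γ.2 π ∣ Δ.s i (γ.1 0) ↔ γ.2 π ∣ γ.2 (Δ.s i 0) := by
    rw [h1]
    constructor
    · rintro ⟨a, ha⟩
      refine ⟨((Δ.L i).e ⟨γ, hγ⟩ 0)⁻¹ • a, ?_⟩
      rw [mul_smul_comm, ← ha, smul_smul, inv_mul_cancel₀ h0, one_smul]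
    · rintro ⟨a, ha⟩
      exact ⟨(Δ.L i).e ⟨γ, hγ⟩ 0 • a, by rw [mul_smul_comm, ← ha]⟩
  exact h2.trans (map_dvd_iff γ.2)

/-- The cone theorem for the movable cone of pairs. -/
theorem core_mov [FiniteDimensional ℂ E] (hQ : IsQuotient 𝒜 u Γ) (Δ : EffDiv 𝒜 Γ ι)
    (hΔ : TrivialOnA Δ) (F : IsMovConePair 𝒜 u {π | IsComp Δ 0 π})
    {H₀ : V → V → ℂ} (Rl : Rel (base Γ) j H₀) (𝒢 : LinGrp (N1 𝒜 Γ j))
    (hint : Preserves 𝒢 (integral 𝒜 Γ j)) (hcone : Preserves 𝒢 (movEff 𝒜 Γ j))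
    (hpull : ∀ (f : V ≃ᵃ[ℂ] V) (φ : R ≃ₐ[ℂ] R) (σ : Cl ρ ≃+ Cl ρ), Induces 𝒜 φ σ →
      KeepsComp Δ f φ → Descends 𝒜 Γ f φ → (∀ v, ∃ e, f v = v + j e) → ∀ g, IsPull f σ g →
      g ∈ 𝒢) :
    ∃ S : Finset (N1 𝒜 Γ j), ↑S ⊆ integral 𝒜 Γ j ∧ cone S ⊆ movEff 𝒜 Γ j ∧
      IsFundDomain 𝒢 (movEff 𝒜 Γ j) (cone S) := by
  refine coreP F.sys hQ (gal_psAutS hQ Δ hΔ) (goodQ_mov F hQ) Rl (fun _ => True)
    (fun _ _ _ _ _ => trivial) 𝒢 hint hcone ?_ ?_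
  · intro f hf hf2 _ g hg
    refine hpull f 1 (AddEquiv.refl _) induces_one
      (keepsComp_of hQ Δ hΔ f isPsAutS_one) (descends_of_norm hf) hf2 g fun x => ⟨(hg x).1, ?_⟩
    rw [(hg x).2, ← rs_apply, rs_refl]
    rfl
  · intro φ σ hφ hc g hg
    refine hpull 1 φ⁻¹ σ.symm (induces_inv hφ.1) (keepsComp_of hQ Δ hΔ 1 (isPsAutS_inv hφ))
      (descends_of_comm hφ.1 hc)
      (fun v => ⟨0, by rw [map_zero, add_zero]; rfl⟩) g fun a => ⟨fun v w v' w' hv hw => ?_, ?_⟩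
    · have hv' : j v' = j v := hv
      have hw' : j w' = j w := hw
      rw [(hg a).1, Rl.inj hv', Rl.inj hw']
    · rw [← rs_apply, rs_symm, (hg a).2]
      exact (rs σ).symm_apply_apply _

end Pool.Agent.U201.PC
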