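import Pool.Agent.U201.PC.Core
import Pool.Agent.U201.PC.Defs

/-!
# The nef cone of pairs
-/

set_option autoImplicit false

namespace Pool.Agent.U201.PC

open Finset Filter Topology
open Pool.Agent.W594.SYZ2 Pool.Agent.W594.SYZ2.TQ Pool.Agent.TH735.AQ
open Pool.Agent.X324.CF Pool.Agent.U201.EC
open Pool.Agent.Y167 (cone Rel Pol Cp CData section_ker)
open Pool.Agent.Y167.CC (LinGrp Preserves IsFundDomain)

section F

variable {ρ : ℕ} {R : Type*} [CommRing R] [Algebra ℂ R]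
  {𝒜 : Cl ρ → Submodule ℂ R} [GradedAlgebra 𝒜] {u : Cl ρ} {S : Set (R →ₐ[ℂ] ℂ)}

theorem isAut_semistable {φ : R ≃ₐ[ℂ] R} {σ : Cl ρ ≃+ Cl ρ} (h : IsAut 𝒜 u φ σ)
    (p : R →ₐ[ℂ] ℂ) : Semistable 𝒜 u (p.comp (φ.symm : R →ₐ[ℂ] R)) ↔ Semistable 𝒜 u p := by
  rw [← h.2, semistable_act h.1]
  have h4 : (p.comp (φ.symm : R →ₐ[ℂ] R)).comp (φ : R →ₐ[ℂ] R) = p := by
    ext1 r
    change p (φ.symm (φ r)) = p r
    rw [φ.symm_apply_apply]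
  rw [h4]

theorem isAutS_mul {φ ψ : R ≃ₐ[ℂ] R} {σ τ : Cl ρ ≃+ Cl ρ}
    (h : IsAutS 𝒜 u S φ σ) (h' : IsAutS 𝒜 u S ψ τ) : IsAutS 𝒜 u S (φ * ψ) (τ.trans σ) := by
  refine ⟨isAut_mul h.1 h'.1, fun p hp => ?_⟩
  have h1 := h.2 _ ((isAut_semistable h'.1 p).2 hp)
  rw [← h'.2 p hp, ← h1]
  exact Iff.rfl

theorem isAutS_inv {φ : R ≃ₐ[ℂ] R} {σ : Cl ρ ≃+ Cl ρ}
    (h : IsAutS 𝒜 u S φ σ) : IsAutS 𝒜 u S φ⁻¹ σ.symm := by
  refine ⟨isAut_inv h.1, fun p hp => ?_⟩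
  have h1 := (isAut_semistable (isAut_inv h.1) p).2 hp
  rw [← h.2 _ h1]
  have h4 : (p.comp ((φ⁻¹ : R ≃ₐ[ℂ] R).symm : R →ₐ[ℂ] R)).comp (φ.symm : R →ₐ[ℂ] R) = p := by
    ext1 r
    change p (φ (φ.symm r)) = p r
    rw [φ.apply_symm_apply]
  rw [h4]

theorem isAutS_one : IsAutS 𝒜 u S 1 (AddEquiv.refl _) :=
  ⟨isAut_of_refl induces_one, fun _ _ => Iff.rfl⟩

theorem IsConePair.sys (F : IsConePair 𝒜 u S) :
    PosSys 𝒜 u (SemiampleF 𝒜 u) (IsAut 𝒜 u) (IsAutS 𝒜 u S) where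
  sections := F.sections
  curve := F.curve
  kernel := F.kernel
  au_ind := fun _ _ h => h.1
  au_mul := fun _ _ _ _ h h' => isAut_mul h h'
  au_inv := fun _ _ h => isAut_inv h
  au_fix := fun φ σ h hu => ⟨h, fun p => by rw [hu]⟩
  pos_act := fun _ _ _ h hβ => semiampleF_act h hβ
  pos_zero := SemiampleF.zero
  pos_add := fun _ _ h h' => h.add h'
  pos_ample := F.ample
  pos_eff := fun β h => by
    obtain ⟨m, hm, h1⟩ := h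
    obtain ⟨p, hp⟩ := F.point
    obtain ⟨r, hr, hr0⟩ := h1 p hp
    exact ⟨m, hm, r, hr, fun h => hr0 (by rw [h, map_zero])⟩
  h_au := fun _ _ h => h.1
  h_mul := fun _ _ _ _ h h' => isAutS_mul h h'
  h_inv := fun _ _ h => isAutS_inv h
  cone := F.cone

end F

variable {V E R : Type*} [NormedAddCommGroup V] [NormedSpace ℂ V] [FiniteDimensional ℂ V]
  [NormedAddCommGroup E] [NormedSpace ℂ E] [CommRing R] [IsDomain R] [Algebra ℂ R] {ρ : ℕ}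
  {𝒜 : Cl ρ → Submodule ℂ R} [GradedAlgebra 𝒜] {Γ : Grp V R} {j : E →ₗ[ℂ] V} {u : Cl ρ}
  {S : Set (R →ₐ[ℂ] ℂ)} {ι : Type*}

theorem goodQ_nef (F : IsConePair 𝒜 u S) (hQ : IsQuotient 𝒜 u Γ) :
    GoodQ (SemiampleF 𝒜 u) (semiample 𝒜 Γ j u) := by
  have hsec : ∀ a ∈ semiample 𝒜 Γ j u, ∃ m : ℕ, 0 < m ∧ ∃ (𝓛 : Sheaf 𝒜 Γ) (f : V → R),
      IsClass j 𝓛 (val a) ∧ 𝓛.IsPowSection m f ∧ ∃ v, f v ≠ 0 := by
    rintro a ⟨𝓛, hc, m, hm, h1⟩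
    obtain ⟨p, hp⟩ := F.point
    obtain ⟨f, hf, hf0⟩ := h1 0 p hp
    exact ⟨m, hm, 𝓛, f, hc, hf, 0, fun h => hf0 (by rw [h, map_zero])⟩
  refine
  { form := ?_
    deg_mem := ?_
    bpf := fun _ hs _ ha => bpf_semiample hs ha
    deg := ?_
    eff := ?_ }
  · rintro a ha e
    obtain ⟨m, hm, 𝓛, f, hc, hf, hv⟩ := hsec a ha
    have hmr : (0 : ℝ) < m := by exact_mod_cast hm
    obtain ⟨⟨H, hH, h2⟩, -⟩ := hc
    have h4 := Sheaf.nef_of_section hQ (Sheaf.chern_pow hH m) hf.sec hv (j e)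
    have e2 : (m : ℂ) = ((m : ℝ) : ℂ) := by push_cast; rfl
    rw [e2, Complex.re_ofReal_mul] at h4
    rw [h2]
    exact nonneg_of_mul_nonneg_right h4 hmr
  · rintro a ⟨𝓛, hc, m, hm, h1⟩
    have h3 : (val a).2 = rv 𝓛.deg := funext hc.2
    rw [h3]
    refine subset_closure (hull_mem ⟨_, ⟨m, hm, fun p hp => ?_⟩, rfl⟩)
    obtain ⟨f, hf, hf0⟩ := h1 0 p hp
    exact ⟨f 0, hf.mem 0, hf0⟩
  · classical
    intro β hβ h
    have := hQ.fin_gal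
    have : Fintype (gal Γ) := Fintype.ofFinite _
    obtain ⟨m, hm, h1⟩ := h
    obtain ⟨a, ha1, ha2⟩ := exists_degclass (j := j) F.sys.base hQ hβ m
    refine ⟨Nat.card (gal Γ) * m, Nat.mul_pos Nat.card_pos hm, a,
      ⟨_, ha1, 1, one_pos, fun v p hp => ?_⟩, ha2⟩
    obtain ⟨r, hr, hr0⟩ := exists_nonvanish (K := gal Γ) (𝒜 := 𝒜) (β := m • β) (p := p) fun φ =>
      h1 _ (semistable_comp hQ hp φ.2)
    exact ⟨_, Sheaf.pow_one_section (ofDeg_section hr), hr0⟩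
  · rintro a ha
    obtain ⟨m, hm, 𝓛, f, ⟨⟨H, hH, h2⟩, h3⟩, hf, hv⟩ := hsec a ha
    have hmr : (0 : ℝ) < m := by exact_mod_cast hm
    refine hull_scaled hmr ⟨𝓛.pow m, f, ⟨⟨_, Sheaf.chern_pow hH m, fun v w => ?_⟩, fun i => ?_⟩,
      hf.sec, hv⟩
    · change (m : ℝ) • (val a).1 v w = (m : ℂ) * H (j v) (j w)
      rw [h2, Complex.real_smul]
      push_cast
      rfl
    · change (m : ℝ) • (val a).2 i = ((m • 𝓛.deg) i : ℤ)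
      rw [h3, smul_eq_mul, Pi.smul_apply, nsmul_eq_mul]
      push_cast
      rfl

omit [IsDomain R] [GradedAlgebra 𝒜] in
/-- The components of `Δ` are constant in the direction of `V`. -/
theorem const_sect (hQ : IsQuotient 𝒜 u Γ) (Δ : EffDiv 𝒜 Γ ι) (hΔ : TrivialOnA Δ) (i : ι)
    (hi : Δ.r i ≠ 0) : ∃ c : V → ℂ, (∀ v, c v ≠ 0) ∧ ∀ v, Δ.s i v = c v • Δ.s i 0 := by
  obtain ⟨hH, F, hF, hFe⟩ := Δ.chern i
  have hpot' : IsPot (Δ.L i).resT (Δ.H i) F := by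
    refine ⟨hF, fun t v => ?_⟩
    exact hFe ⟨(t.1, 1), t.2.2⟩ v
  refine ⟨fun v => Complex.exp (F v - F 0), fun v => Complex.exp_ne_zero _, fun v => ?_⟩
  rw [← sub_eq_zero]
  refine (Module.forall_dual_apply_eq_zero_iff ℂ _).1 fun ℓ => ?_
  rw [map_sub, map_smul, sub_eq_zero, smul_eq_mul]
  have h1 := section_ker (trans_torus hQ) hH hpot' (Sheaf.resT_section (Δ.sect i) ℓ)
    (k := v) (fun y => hΔ i hi v y) 0
  rw [zero_add] at h1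
  have h2 : ℓ (Δ.s i v) = ℓ (Δ.s i v) * Complex.exp (-F v) * Complex.exp (F v) := by
    rw [mul_assoc, ← Complex.exp_add, neg_add_cancel, Complex.exp_zero, mul_one]
  rw [h2, h1]
  beta_reduce
  rw [sub_eq_add_neg, Complex.exp_add]
  ring

omit [IsDomain R] [GradedAlgebra 𝒜] in
theorem inSupp_const (hQ : IsQuotient 𝒜 u Γ) (Δ : EffDiv 𝒜 Γ ι) (hΔ : TrivialOnA Δ) (v : V)
    (p : R →ₐ[ℂ] ℂ) : InSupp Δ v p ↔ InSupp Δ 0 p := by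
  refine exists_congr fun i => and_congr_right fun hi => ?_
  obtain ⟨c, hc, h⟩ := const_sect hQ Δ hΔ i hi
  rw [h v, map_smul, smul_eq_mul, mul_eq_zero, or_iff_right (hc v)]

omit [IsDomain R] [GradedAlgebra 𝒜] in
/-- The automorphisms of `F` which preserve the restriction of `Δ` to one fibre preserve `Δ`. -/
theorem keeps_of (hQ : IsQuotient 𝒜 u Γ) (Δ : EffDiv 𝒜 Γ ι) (hΔ : TrivialOnA Δ)
    (f : V ≃ᵃ[ℂ] V) {φ : R ≃ₐ[ℂ] R} {σ : Cl ρ ≃+ Cl ρ}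
    (h : IsAutS 𝒜 u {p | InSupp Δ 0 p} φ σ) : Keeps u Δ f φ := by
  intro v p hp
  rw [inSupp_const hQ Δ hΔ, inSupp_const hQ Δ hΔ v]
  exact h.2 p hp

omit [IsDomain R] in
/-- The elements of the finite group preserve the divisor. -/
theorem gal_autS (hQ : IsQuotient 𝒜 u Γ) (Δ : EffDiv 𝒜 Γ ι) (hΔ : TrivialOnA Δ) (ψ : gal Γ) :
    IsAutS 𝒜 u {p | InSupp Δ 0 p} ψ.1 (sg hQ ψ) := by
  refine ⟨isAut_sg hQ ψ, ?_⟩
  have key : ∀ p : R →ₐ[ℂ] ℂ, InSupp Δ 0 (p.comp (ψ.1 : R →ₐ[ℂ] R)) ↔ InSupp Δ 0 p := by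
    intro p
    obtain ⟨φ, γ, hγ, rfl⟩ := ψ
    rw [← inSupp_const hQ Δ hΔ (γ.1 0) p]
    refine exists_congr fun i => and_congr_right fun hi => ?_
    have h1 := (Δ.sect i).eq ⟨γ, hγ⟩ 0
    change Δ.s i (γ.1 0) = _ at h1
    rw [h1, map_smul, smul_eq_mul, mul_eq_zero, or_iff_right ((Δ.L i).ne_zero _ _)]
    exact Iff.rfl
  intro p _
  have h2 := key (p.comp (ψ.1.symm : R →ₐ[ℂ] R))
  have h4 : (p.comp (ψ.1.symm : R →ₐ[ℂ] R)).comp (ψ.1 : R →ₐ[ℂ] R) = p := by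
    ext1 r
    change p (ψ.1.symm (ψ.1 r)) = p r
    rw [ψ.1.symm_apply_apply]
  rw [h4] at h2
  exact h2.symm

/-- The cone theorem for pairs. -/
theorem core_nef [FiniteDimensional ℂ E] (hQ : IsQuotient 𝒜 u Γ) (Δ : EffDiv 𝒜 Γ ι)
    (hΔ : TrivialOnA Δ) (F : IsConePair 𝒜 u {p | InSupp Δ 0 p})
    {H₀ : V → V → ℂ} (Rl : Rel (base Γ) j H₀) (𝒢 : LinGrp (N1 𝒜 Γ j))
    (hint : Preserves 𝒢 (integral 𝒜 Γ j)) (hcone : Preserves 𝒢 (nefEff 𝒜 Γ j u))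
    (hpull : ∀ (f : V ≃ᵃ[ℂ] V) (φ : R ≃ₐ[ℂ] R) (σ : Cl ρ ≃+ Cl ρ), IsAut 𝒜 u φ σ →
      Keeps u Δ f φ → Descends 𝒜 Γ f φ → (∀ v, ∃ e, f v = v + j e) → ∀ g, IsPull f σ g → g ∈ 𝒢) :
    ∃ S : Finset (N1 𝒜 Γ j), ↑S ⊆ integral 𝒜 Γ j ∧ cone S ⊆ nefEff 𝒜 Γ j u ∧
      IsFundDomain 𝒢 (nefEff 𝒜 Γ j u) (cone S) := by
  refine coreP F.sys hQ (gal_autS hQ Δ hΔ) (goodQ_nef F hQ) Rl (fun _ => True)
    (fun _ _ _ _ _ => trivial) 𝒢 hint hcone ?_ ?_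
  · intro f hf hf2 _ g hg
    refine hpull f 1 (AddEquiv.refl _) (isAut_of_refl induces_one)
      (keeps_of hQ Δ hΔ f isAutS_one) (descends_of_norm hf) hf2 g fun x => ⟨(hg x).1, ?_⟩
    rw [(hg x).2, ← rs_apply, rs_refl]
    rfl
  · intro φ σ hφ hc g hg
    refine hpull 1 φ⁻¹ σ.symm (isAut_inv hφ.1) (keeps_of hQ Δ hΔ 1 (isAutS_inv hφ))
      (descends_of_comm hφ.1.1 hc)
      (fun v => ⟨0, by rw [map_zero, add_zero]; rfl⟩) g fun a => ⟨fun v w v' w' hv hw => ?_, ?_⟩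
    · have hv' : j v' = j v := hv
      have hw' : j w' = j w := hw
      rw [(hg a).1, Rl.inj hv', Rl.inj hw']
    · rw [← rs_apply, rs_symm, (hg a).2]
      exact (rs σ).symm_apply_apply _

end Pool.Agent.U201.PC
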